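import Pool.Agent.THS.StmtsB

/-!
# THS row FPE (exact period of the functions `ff`)
-/

set_option autoImplicit false

namespace Pool.Agent.THS.H43

open scoped BigOperators
open Pool.Agent.THS

theorem fpe : FpeStatement := by
  intro K _ g N α β T x u a hS hu k
  have hβ := hS.hβ
  have step : ∀ (m : ℕ) (k : ℤ) (c : Fin g → ZMod 2),
      T (k + m * N) c = α ^ m * β ^ ((m : ℤ) * k + N * (m.choose 2 : ℤ)) * T k c := by
    intro m
    induction m with
    | zero => intro k c; simp
    | succ m ih =>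
      intro k c
      have h1 := hS.per (k + m * N) c
      have h0 : k + ((m + 1 : ℕ) : ℤ) * N = k + m * N + N := by push_cast; ring
      have h2 : (((m + 1).choose 2 : ℕ) : ℤ) = (m.choose 2 : ℤ) + m := by
        have : (m + 1).choose 2 = m.choose 1 + m.choose 2 := Nat.choose_succ_succ' m 1
        rw [this, Nat.choose_one_right]; push_cast; ring
      have h3 : ((m + 1 : ℕ) : ℤ) * k + N * (((m + 1).choose 2 : ℕ) : ℤ)
          = (k + m * N) + ((m : ℤ) * k + N * (m.choose 2 : ℤ)) := by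
        rw [h2]; push_cast; ring
      rw [h0, h1, ih k c, h3, zpow_add₀ hβ (k + m * N) ((m : ℤ) * k + N * (m.choose 2 : ℤ)), pow_succ]
      generalize β ^ (k + (m : ℤ) * N) = A
      generalize β ^ ((m : ℤ) * k + N * (m.choose 2 : ℤ)) = B
      ring
  have hone : ∀ l, T (u l * (k + N)) (a l)
      = α ^ (u l) * β ^ ((u l : ℤ) ^ 2 * k + N * ((u l).choose 2 : ℤ)) * T (u l * k) (a l) := by
    intro l
    have h0 : (u l : ℤ) * (k + N) = u l * k + u l * N := by ring
    rw [h0, step (u l) (u l * k) (a l)]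
    congr 3
    ring
  have hprod : ∏ l, T (u l * (k + N)) (a l)
      = (α ^ (∑ l, u l) * β ^ (∑ l, ((u l : ℤ) ^ 2 * k + N * ((u l).choose 2 : ℤ))))
        * ∏ l, T (u l * k) (a l) := by
    rw [Finset.prod_congr rfl (fun l _ => hone l), Finset.prod_mul_distrib,
      Finset.prod_mul_distrib, Finset.prod_pow_eq_pow_sum]
    congr 2
    have : ∀ s : Finset (Fin 5), ∏ l ∈ s, β ^ ((u l : ℤ) ^ 2 * k + N * ((u l).choose 2 : ℤ))
        = β ^ (∑ l ∈ s, ((u l : ℤ) ^ 2 * k + N * ((u l).choose 2 : ℤ))) := by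
      intro s
      induction s using Finset.induction_on with
      | empty => simp
      | insert i s hi ih =>
        rw [Finset.prod_insert hi, Finset.sum_insert hi, ih,
          zpow_add₀ hβ ((u i : ℤ) ^ 2 * k + N * ((u i).choose 2 : ℤ))
            (∑ l ∈ s, ((u l : ℤ) ^ 2 * k + N * ((u l).choose 2 : ℤ)))]
    exact this _
  -- arithmetic of the exponents
  have hch : ∀ l, 2 * (u l).choose 2 + u l = u l ^ 2 := by
    intro l
    have h := Nat.choose_two_right (u l)
    have h2 : 2 * (u l * (u l - 1) / 2) = u l * (u l - 1) :=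
      Nat.mul_div_cancel' (Nat.even_mul_pred_self (u l)).two_dvd
    rw [h, h2]
    rcases Nat.eq_zero_or_pos (u l) with h0 | h0
    · rw [h0]; rfl
    · obtain ⟨w, hw⟩ := Nat.exists_eq_succ_of_ne_zero (Nat.pos_iff_ne_zero.mp h0)
      rw [hw]; simp; ring
  have hsum : 2 * (∑ l, (u l).choose 2) + ∑ l, u l = 2 * N := by
    rw [← hu, ← Finset.sum_congr rfl (fun l _ => hch l), Finset.sum_add_distrib, Finset.mul_sum]
  obtain ⟨s', hs'⟩ : ∃ s' : ℕ, ∑ l, u l = 2 * s' := ⟨N - ∑ l, (u l).choose 2, by omega⟩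
  have hcs : (∑ l, (u l).choose 2) + s' = N := by omega
  have hE : (∑ l, ((u l : ℤ) ^ 2 * k + N * ((u l).choose 2 : ℤ)))
      = 2 * N * k + N * ((N : ℤ) - s') := by
    rw [Finset.sum_add_distrib, ← Finset.sum_mul, ← Finset.mul_sum]
    have e1 : (∑ l, ((u l : ℤ)) ^ 2) = 2 * N := by
      have := congrArg (fun t : ℕ => (t : ℤ)) hu
      push_cast at this
      exact this
    have e2 : (∑ l, (((u l).choose 2 : ℕ) : ℤ)) = (N : ℤ) - s' := by
      have := congrArg (fun t : ℕ => (t : ℤ)) hcs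
      push_cast at this
      linarith
    rw [e1, e2]
  have hfac : α ^ (∑ l, u l) * β ^ (∑ l, ((u l : ℤ) ^ 2 * k + N * ((u l).choose 2 : ℤ)))
      = β ^ (2 * N * k + (N : ℤ) ^ 2) := by
    rw [hE, hs', pow_mul, hS.ab, ← pow_mul, ← zpow_natCast, ← zpow_add₀ hβ]
    congr 1
    push_cast
    ring
  unfold ff
  rw [hprod, hfac, ← mul_assoc, ← zpow_add₀ hβ]
  congr 2
  ring

end Pool.Agent.THS.H43
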